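import Pool.Agent.Helper917_Lat.E
import Pool.Agent.Helper917_Lat.B

open Pool.Agent.Helper917Lat

namespace Pool.Agent.Results.MP_b75a1e_co.AboveSqrt

theorem of_family (n d : ℕ) (hn : 3 ≤ n) (hm : 0 < n * d) (G : Finset ℚ)
    (hcard : n = 2 * G.card + 1) (hpos : ∀ g ∈ G, 0 < g)
    (hsum : ∑ g ∈ G, 1 / (((n * d : ℕ) : ℚ) + g ^ 2) = (n : ℚ) / (4 * ((n * d : ℕ) : ℚ))) :
    HasConvexEquilateralGon (Lat (n * d)) n := by
  obtain ⟨e, N, hinj, hN, hnorm, hs⟩ := vectors_of_family (κ := {g // g ∈ G}) (n * d) hm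
    (fun g => g.1) Subtype.val_injective (fun g => hpos g.1 g.2) n
    (by rw [Fintype.card_coe]; exact hcard)
    (by
      rw [← hsum]
      exact Finset.sum_coe_sort G (fun g => 1 / (((n * d : ℕ) : ℚ) + g ^ 2)))
  refine gon_of_vectors hm hn ?_ e N hinj hN hnorm hs
  simp only [Fintype.card_option, Fintype.card_prod, Fintype.card_coe, Fintype.card_bool]
  omega

theorem gon3 : HasConvexEquilateralGon (Lat 3) 3 :=
  gon_of_vectors (ι := Fin 3) (by norm_num) (by norm_num) (by simp)
    ![(2, 0), (-1, 1), (-1, -1)] 4 (by decide) (by norm_num) (by decide) (by decide)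

theorem gon5 : HasConvexEquilateralGon (Lat 15) 5 :=
  gon_of_vectors (ι := Fin 5) (by norm_num) (by norm_num) (by simp)
    ![(-4173, -3), (-633, -1065), (552, 1068), (2127, -927), (2127, 927)] 17414064
    (by decide) (by norm_num) (by decide) (by decide)

theorem gon7 : HasConvexEquilateralGon (Lat 35) 7 :=
  gon_of_vectors (ι := Fin 7) (by norm_num) (by norm_num) (by simp)
    ![(-123, 3), (-102, 12), (-53, -19), (-53, 19), (87, -15), (122, -4), (122, 4)] 15444
    (by decide) (by norm_num) (by decide) (by decide)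

/-- If `m = n d ≡ 3 (mod 4)` with `d < n`, and `n` is prime or `n ≥ d + 6`, then the lattice `Λ(m)`
contains a convex equilateral `n`-gon. In particular Q1 has a positive answer for every square-free
`m ≡ 3 (mod 4)` whose largest prime factor is larger than the square root of `m`. -/
theorem result (n d : ℕ) (h4 : (n * d) % 4 = 3) (hlt : d < n) (hn : n.Prime ∨ d + 6 ≤ n) :
    HasConvexEquilateralGon (Lat (n * d)) n := by
  have hd0 : 0 < d := by
    rcases Nat.eq_zero_or_pos d with h | h
    · subst h; omega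
    · exact h
  have hm : 0 < n * d := Nat.mul_pos (by omega) hd0
  by_cases h6 : d + 6 ≤ n
  · obtain ⟨G, hcard, hpos, hsum⟩ := family_nd n d h4 h6
    exact of_family n d (by omega) hm G hcard hpos hsum
  have hp : n.Prime := hn.resolve_right h6
  have hmod : (n + d) % 4 = 0 := by
    have h1 : (n * d) % 4 = ((n % 4) * (d % 4)) % 4 := Nat.mul_mod _ _ _
    have hn4 : n % 4 < 4 := Nat.mod_lt _ (by norm_num)
    have hd4 : d % 4 < 4 := Nat.mod_lt _ (by norm_num)
    rw [h4] at h1
    have h2 : (n + d) % 4 = ((n % 4) + (d % 4)) % 4 := Nat.add_mod _ _ _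
    rw [h2]
    generalize n % 4 = u at h1 hn4
    generalize d % 4 = v at h1 hd4
    interval_cases u <;> interval_cases v <;> omega
  have hdodd : d % 2 = 1 := by
    by_contra h
    have : d % 2 = 0 := by omega
    obtain ⟨e, rfl⟩ : 2 ∣ d := Nat.dvd_of_mod_eq_zero this
    have : n * (2 * e) = 2 * (n * e) := by ring
    omega
  have hnd : n = d + 2 := by omega
  subst hnd
  by_cases h9 : 9 ≤ d
  · obtain ⟨G, hcard, hpos, hsum⟩ := family_twin d hdodd h9 (by
      intro h
      have h1 := Nat.le_of_dvd (by norm_num) h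
      have h2 : d ≤ 13 := by omega
      interval_cases d
      · norm_num at h
      · omega
      · norm_num at h
      · omega
      · norm_num at hp)
    exact of_family (d + 2) d (by omega) hm G hcard hpos hsum
  · have h3 : d = 1 ∨ d = 3 ∨ d = 5 ∨ d = 7 := by omega
    rcases h3 with rfl | rfl | rfl | rfl
    · exact gon3
    · exact gon5
    · exact gon7
    · norm_num at hp

end Pool.Agent.Results.MP_b75a1e_co.AboveSqrt
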